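import Pool.Agent.H38.GP.Sharp

set_option autoImplicit false
set_option linter.unusedSectionVars false

/-!
# MP_86f994_an: linear maps on `B(H)` preserving a class of operators with generalized inverses

`H` is an infinite-dimensional separable complex Hilbert space. Q1 concerns the linear maps which
preserve the class `B(H)^` of all operators with a generalized inverse in both directions. The same
two forms are obtained for every class `S ⊆ B(H)^` which is stable under finite rank perturbations,
contains the operators that are invertible or idempotent modulo `F(H)`, and contains all or only the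
invertible ones of the operators which are left (right) invertible modulo `F(H)`.
-/

namespace Pool.Agent.Results.MP_86f994_an.ClassPreservers

variable {H : Type*} [NormedAddCommGroup H] [InnerProductSpace ℂ H]

/-- `T` has a generalized inverse: some `S` satisfies `T S T = T` and `S T S = S`. -/
def HasGenInv (T : H →L[ℂ] H) : Prop := ∃ S : H →L[ℂ] H, T * S * T = T ∧ S * T * S = S

/-- `T` has finite rank: its range is finite-dimensional. -/
def FiniteRank (T : H →L[ℂ] H) : Prop := FiniteDimensional ℂ (LinearMap.range (T : H →ₗ[ℂ] H))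

/-- `A` is Fredholm: its range is closed, its kernel and its cokernel are finite-dimensional. -/
def Fredholm (A : H →L[ℂ] H) : Prop :=
  IsClosed (Set.range A) ∧ FiniteDimensional ℂ (LinearMap.ker (A : H →ₗ[ℂ] H)) ∧
    FiniteDimensional ℂ (H ⧸ LinearMap.range (A : H →ₗ[ℂ] H))

/-- `T'` is the transpose of `T` with respect to the orthonormal basis `e`: the `e j`-coefficient
of `T' (e i)` is the `e i`-coefficient of `T (e j)`, for all `i` and `j`. -/
def IsTransposeOf (e : HilbertBasis ℕ ℂ H) (T' T : H →L[ℂ] H) : Prop :=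
  ∀ i j, inner ℂ (e j) (T' (e i)) = inner ℂ (e i) (T (e j))

/-- `φ` is surjective up to finite rank operators. -/
def SurjUpToFR (φ : (H →L[ℂ] H) →ₗ[ℂ] (H →L[ℂ] H)) : Prop := ∀ A, ∃ B, FiniteRank (A - φ B)

/-- `φ` has one of the two forms of Q1: `φ T = A T B + χ T` for all `T`, or `φ T = A Tᵗʳ B + χ T`
for all `T`, with `A`, `B` Fredholm and `χ` linear with values in the finite rank operators. -/
def StandardForm (e : HilbertBasis ℕ ℂ H) (φ : (H →L[ℂ] H) →ₗ[ℂ] (H →L[ℂ] H)) : Prop :=
  ∃ A B : H →L[ℂ] H, Fredholm A ∧ Fredholm B ∧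
    ∃ χ : (H →L[ℂ] H) →ₗ[ℂ] (H →L[ℂ] H), (∀ T, FiniteRank (χ T)) ∧
      ((∀ T, φ T = A * T * B + χ T) ∨
        (∀ T, ∃ T', IsTransposeOf e T' T ∧ φ T = A * T' * B + χ T))

/-- `T` is left invertible modulo `F(H)` (upper semi-Fredholm). -/
def LeftInv (T : H →L[ℂ] H) : Prop := ∃ S : H →L[ℂ] H, FiniteRank (S * T - 1)

/-- `T` is right invertible modulo `F(H)` (lower semi-Fredholm). -/
def RightInv (T : H →L[ℂ] H) : Prop := ∃ S : H →L[ℂ] H, FiniteRank (T * S - 1)

/-- The conditions on the class `S` of operators except the one on idempotents: `S` is stable under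
finite rank perturbations, all its members have generalized inverses, it contains all finite rank
operators and all operators which are invertible modulo `F(H)`, and it contains either all operators
which are left invertible modulo `F(H)` or none of them except the invertible ones, and likewise for
the right invertible ones. -/
structure AlmostAdmissible (S : Set (H →L[ℂ] H)) : Prop where
  pert : ∀ A B, FiniteRank (A - B) → A ∈ S → B ∈ S
  genInv : ∀ T ∈ S, HasGenInv T
  finRank : ∀ T, FiniteRank T → T ∈ S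
  inv : ∀ T, LeftInv T → RightInv T → T ∈ S
  left : (∀ T, LeftInv T → T ∈ S) ∨ (∀ T ∈ S, LeftInv T → RightInv T)
  right : (∀ T, RightInv T → T ∈ S) ∨ (∀ T ∈ S, RightInv T → LeftInv T)

/-- The classes `S` of operators under consideration: in addition `S` contains all operators which
are idempotent modulo `F(H)`. -/
structure Admissible (S : Set (H →L[ℂ] H)) : Prop extends AlmostAdmissible S where
  idem : ∀ T, FiniteRank (T * T - T) → T ∈ S

/-- The generalized Fredholm operators: those which have, modulo `F(H)`, a generalized inverse that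
commutes with them. -/
def GenFredholm (T : H →L[ℂ] H) : Prop :=
  ∃ S : H →L[ℂ] H, FiniteRank (T * S * T - T) ∧ FiniteRank (T * S - S * T)

/-- The operators which are invertible or idempotent modulo `F(H)`. -/
def InvOrIdem (T : H →L[ℂ] H) : Prop := (LeftInv T ∧ RightInv T) ∨ FiniteRank (T * T - T)

/-- The operators which are semi-Fredholm or of finite rank. -/
def SemiOrFinite (T : H →L[ℂ] H) : Prop := LeftInv T ∨ RightInv T ∨ FiniteRank T

open Pool.Agent.Helper280.GI in
theorem adm_iff [CompleteSpace H] {S : Set (H →L[ℂ] H)} (hS : Admissible S) : H38.GP.Adm S :=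
  ⟨hS.pert, fun T hT => (gi_iff T).1 (hS.genInv T hT), hS.inv, hS.idem, hS.left, hS.right⟩

open Pool.Agent.Helper280.GI in
theorem form_of_class [CompleteSpace H] [TopologicalSpace.SeparableSpace H]
    (hH : ¬ FiniteDimensional ℂ H) (e : HilbertBasis ℕ ℂ H) {S S' : Set (H →L[ℂ] H)}
    (hS : Admissible S) (hS' : Admissible S') (φ : (H →L[ℂ] H) →ₗ[ℂ] (H →L[ℂ] H))
    (h : ∀ T, T ∈ S ↔ φ T ∈ S') (hs : SurjUpToFR φ) : StandardForm e φ :=
  H38.GP.Preserver.form ⟨h, hs⟩ (adm_iff hS) (adm_iff hS') hH e

section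

open Pool.Agent.Helper280.GI

variable [CompleteSpace H]

theorem adm_genInv : Admissible {T : H →L[ℂ] H | HasGenInv T} where
  pert A B h hA := (gi_iff B).2 ((rg_congr h).1 ((gi_iff A).1 hA))
  genInv T hT := hT
  inv T hl _ := (gi_iff T).2 (rg_of_li hl)
  finRank T hT := (gi_iff T).2 ⟨0, by rw [mul_zero, zero_mul, zero_sub]; exact FR.neg hT⟩
  idem T hT := (gi_iff T).2 ⟨1, by rwa [mul_one]⟩
  left := Or.inl fun T hT => (gi_iff T).2 (rg_of_li hT)
  right := Or.inl fun T hT => (gi_iff T).2 (rg_of_ri hT)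

theorem gf_iff {T : H →L[ℂ] H} : GenFredholm T ↔
    ∃ s : QH H, qm H T * s * qm H T = qm H T ∧ qm H T * s = s * qm H T := by
  constructor
  · rintro ⟨S, h1, h2⟩
    refine ⟨qm H S, ?_, ?_⟩
    · rw [← map_mul, ← map_mul]; exact qm_eq.2 h1
    · rw [← map_mul, ← map_mul]; exact qm_eq.2 h2
  · rintro ⟨s, h1, h2⟩
    obtain ⟨S, rfl⟩ := qm_surjective H s
    refine ⟨S, ?_, ?_⟩
    · rw [← map_mul, ← map_mul] at h1; exact qm_eq.1 h1
    · rw [← map_mul, ← map_mul] at h2; exact qm_eq.1 h2

theorem adm_genFredholm : Admissible {T : H →L[ℂ] H | GenFredholm T} where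
  pert A B h hA := by
    have e : qm H A = qm H B := qm_eq.2 h
    have h1 := gf_iff.1 hA
    rw [e] at h1
    exact gf_iff.2 h1
  genInv T hT := by
    obtain ⟨S, h, -⟩ := hT
    exact (gi_iff T).2 ⟨S, h⟩
  inv T hl hr := by
    obtain ⟨u, hu⟩ := inv_iff_unit.1 ⟨hl, hr⟩
    refine gf_iff.2 ⟨((u⁻¹ : (QH H)ˣ) : QH H), ?_, ?_⟩
    · rw [← hu, Units.mul_inv, one_mul]
    · rw [← hu, Units.mul_inv, Units.inv_mul]
  finRank T hT := ⟨0, by rw [mul_zero, zero_mul, zero_sub]; exact FR.neg hT, by
    rw [mul_zero, zero_mul, sub_self]; exact FR.zero⟩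
  idem T hT := ⟨1, by rwa [mul_one], by
    rw [mul_one, one_mul, sub_self]; exact FR.zero⟩
  left := Or.inr fun T hT hl => by
    obtain ⟨s, h1, h2⟩ := gf_iff.1 hT
    obtain ⟨l, hl⟩ := li_iff.1 hl
    refine ri_iff.2 ⟨s, ?_⟩
    rw [h2]
    calc s * qm H T = (l * qm H T) * (s * qm H T) := by rw [hl, one_mul]
      _ = l * (qm H T * s * qm H T) := by simp only [mul_assoc]
      _ = 1 := by rw [h1, hl]
  right := Or.inr fun T hT hr => by
    obtain ⟨s, h1, h2⟩ := gf_iff.1 hT
    obtain ⟨r, hr⟩ := ri_iff.1 hr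
    refine li_iff.2 ⟨s, ?_⟩
    rw [← h2]
    calc qm H T * s = (qm H T * s) * (qm H T * r) := by rw [hr, mul_one]
      _ = (qm H T * s * qm H T) * r := by simp only [mul_assoc]
      _ = 1 := by rw [h1, hr]

theorem idem_iff {T : H →L[ℂ] H} : FiniteRank (T * T - T) ↔ qm H T * qm H T = qm H T := by
  rw [← map_mul]
  exact qm_eq.symm

theorem adm_invOrIdem : Admissible {T : H →L[ℂ] H | InvOrIdem T} where
  pert A B h hA := by
    rcases hA with ⟨h1, h2⟩ | h1
    · exact Or.inl ⟨(li_congr h).1 h1, (ri_congr h).1 h2⟩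
    · right
      rw [idem_iff] at h1 ⊢
      rwa [← qm_eq.2 h]
  genInv T hT := by
    rcases hT with ⟨h1, -⟩ | h1
    · exact (gi_iff T).2 (rg_of_li h1)
    · exact (gi_iff T).2 ⟨1, by rwa [mul_one]⟩
  finRank T hT := Or.inr (FR.sub (FR.mul_left hT T) hT)
  inv T hl hr := Or.inl ⟨hl, hr⟩
  idem T hT := Or.inr hT
  left := Or.inr fun T hT hl => by
    rcases hT with ⟨-, h2⟩ | h1
    · exact h2
    · rw [idem_iff] at h1
      obtain ⟨l, hl⟩ := li_iff.1 hl
      refine ri_iff.2 ⟨1, ?_⟩
      calc qm H T * 1 = (l * qm H T) * qm H T := by rw [hl, one_mul, mul_one]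
        _ = 1 := by rw [mul_assoc, h1, hl]
  right := Or.inr fun T hT hr => by
    rcases hT with ⟨h2, -⟩ | h1
    · exact h2
    · rw [idem_iff] at h1
      obtain ⟨r, hr⟩ := ri_iff.1 hr
      refine li_iff.2 ⟨1, ?_⟩
      calc 1 * qm H T = qm H T * (qm H T * r) := by rw [hr, one_mul, mul_one]
        _ = 1 := by rw [← mul_assoc, h1, hr]

theorem almost_semiOrFinite : AlmostAdmissible {T : H →L[ℂ] H | SemiOrFinite T} where
  pert A B h hA := by
    rcases hA with h1 | h1 | h1
    · exact Or.inl ((li_congr h).1 h1)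
    · exact Or.inr (Or.inl ((ri_congr h).1 h1))
    · exact Or.inr (Or.inr (FR.of_sub (FR.sub_comm h) h1))
  genInv T hT := by
    rcases hT with h1 | h1 | h1
    · exact (gi_iff T).2 (rg_of_li h1)
    · exact (gi_iff T).2 (rg_of_ri h1)
    · exact (gi_iff T).2 ⟨0, by rw [mul_zero, zero_mul, zero_sub]; exact FR.neg h1⟩
  finRank T hT := Or.inr (Or.inr hT)
  inv T hl _ := Or.inl hl
  left := Or.inl fun T hT => Or.inl hT
  right := Or.inl fun T hT => Or.inr (Or.inl hT)

/-- the transpose is unique -/
theorem transpose_unique (e : HilbertBasis ℕ ℂ H) {T T₁ T₂ : H →L[ℂ] H}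
    (h1 : IsTransposeOf e T₁ T) (h2 : IsTransposeOf e T₂ T) : T₁ = T₂ := by
  apply clm_ext833 e
  intro i
  apply hb_ext833 e
  intro j
  rw [h1 i j, h2 i j]

/-- The condition on idempotents cannot be dropped. -/
theorem sharp [TopologicalSpace.SeparableSpace H] (hH : ¬ FiniteDimensional ℂ H)
    (e : HilbertBasis ℕ ℂ H) :
    ∃ φ : (H →L[ℂ] H) →ₗ[ℂ] (H →L[ℂ] H), Function.Bijective φ ∧
      (∀ T, LeftInv T ↔ LeftInv (φ T)) ∧ (∀ T, RightInv T ↔ RightInv (φ T)) ∧
      (∀ T, FiniteRank T ↔ FiniteRank (φ T)) ∧ ¬ StandardForm e φ := by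
  obtain ⟨f, K, h⟩ := H38.GP.exists_data (H := H) hH
  refine ⟨H38.GP.pert f K, h.bij, h.li, h.ri, h.fr, ?_⟩
  rintro ⟨A, B, -, -, χ, hχ, hform⟩
  rcases hform with h1 | h1
  · refine h.not_hom hH A B fun T => ?_
    have h2 : H38.GP.pert f K T - A * T * B = χ T := by rw [h1 T]; abel
    rw [h2]
    exact hχ T
  · obtain ⟨tr, ht1, ht2, ht3, ht4, -⟩ := exists_transpose e
    refine h.not_anti hH A B tr ht2 ht3 ht4 fun T => ?_
    obtain ⟨T', hT', h2⟩ := h1 T
    have h3 : T' = tr T := transpose_unique e hT' (fun i j => ht1 T i j)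
    have h4 : H38.GP.pert f K T - A * tr T * B = χ T := by rw [h2, h3]; abel
    rw [h4]
    exact hχ T

end

/-- Let `H` be an infinite-dimensional separable complex Hilbert space with orthonormal basis `e`.
(1) Q1: every linear map on `B(H)` which preserves generalized invertibility in both directions and
is surjective up to finite rank operators has one of the two standard forms. (2) More generally,
let `S₁`, `S₂` be admissible classes of operators; every linear map `φ` which is surjective up to
finite rank operators and satisfies `T ∈ S₁ ↔ φ T ∈ S₂` for all `T` has one of the two forms.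
(3) The class of all operators with a generalized inverse is the largest admissible class, the class
of the operators which are invertible or idempotent modulo `F(H)` is the smallest one, and the class
of the generalized Fredholm operators is admissible. (4) The condition on idempotents in the
definition of an admissible class cannot be dropped: the class of the operators which are left or
right invertible modulo `F(H)` or of finite rank satisfies all the others, and there is a bijective
linear map on `B(H)`, not of one of the two forms, which preserves each of the three kinds of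
operators in both directions. -/
theorem result {H : Type*} [NormedAddCommGroup H] [InnerProductSpace ℂ H] [CompleteSpace H]
    [TopologicalSpace.SeparableSpace H] (hH : ¬ FiniteDimensional ℂ H)
    (e : HilbertBasis ℕ ℂ H) :
    (∀ φ : (H →L[ℂ] H) →ₗ[ℂ] (H →L[ℂ] H), (∀ T, HasGenInv T ↔ HasGenInv (φ T)) →
      SurjUpToFR φ → StandardForm e φ) ∧
    (∀ S₁ S₂ : Set (H →L[ℂ] H), Admissible S₁ → Admissible S₂ →
      ∀ φ : (H →L[ℂ] H) →ₗ[ℂ] (H →L[ℂ] H), (∀ T, T ∈ S₁ ↔ φ T ∈ S₂) →
        SurjUpToFR φ → StandardForm e φ) ∧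
    (Admissible {T : H →L[ℂ] H | HasGenInv T} ∧ Admissible {T : H →L[ℂ] H | InvOrIdem T} ∧
      (∀ S : Set (H →L[ℂ] H), Admissible S → ∀ T, (InvOrIdem T → T ∈ S) ∧ (T ∈ S → HasGenInv T)) ∧
      Admissible {T : H →L[ℂ] H | GenFredholm T}) ∧
    AlmostAdmissible {T : H →L[ℂ] H | SemiOrFinite T} ∧
    (∃ φ : (H →L[ℂ] H) →ₗ[ℂ] (H →L[ℂ] H), Function.Bijective φ ∧
      (∀ T, LeftInv T ↔ LeftInv (φ T)) ∧ (∀ T, RightInv T ↔ RightInv (φ T)) ∧
      (∀ T, FiniteRank T ↔ FiniteRank (φ T)) ∧ ¬ StandardForm e φ) :=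
  ⟨fun φ h hs => form_of_class hH e adm_genInv adm_genInv φ h hs,
    fun _ _ h1 h2 φ h hs => form_of_class hH e h1 h2 φ h hs,
    ⟨adm_genInv, adm_invOrIdem, fun S hS T => ⟨fun h => by
      rcases h with ⟨h1, h2⟩ | h1
      · exact hS.inv T h1 h2
      · exact hS.idem T h1, hS.genInv T⟩, adm_genFredholm⟩,
    almost_semiOrFinite, sharp hH e⟩

end Pool.Agent.Results.MP_86f994_an.ClassPreservers
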